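import Pool.Agent.V7H42.LW.Exch

/-!
# The core: chains of lowest degree and weights
-/

set_option autoImplicit false

namespace Pool.Agent.V7H42.LW

open Pool.Agent.TH625.LOG Pool.Agent.N819.UD Pool.Agent.N819.LT Finset

/-- `S` is a spanning decomposition. -/
def Dec {V E : Type} (p q lab : E → V) (S : Set E) : Prop := Mix p q lab S ∧ Spans p lab S

/-- Exactly one spanning decomposition has the smallest weight. -/
def UMin {V E : Type} [Fintype E] (p q lab : E → V) (w : E → ℝ) : Prop :=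
  ∃ S : Set E, Dec p q lab S ∧ ∀ S' : Set E, Dec p q lab S' → S' ≠ S → wt w S < wt w S'

/-- `ψ` is a homomorphism on the kernel of `χ`, with values in the real numbers. -/
def KerHom {G : Type} [Group G] (χ : G →* Multiplicative ℤ) (ψ : G → ℝ) : Prop :=
  ∀ g h : G, χ g = 1 → χ h = 1 → ψ (g * h) = ψ g + ψ h

theorem KerHom.one {G : Type} [Group G] {χ : G →* Multiplicative ℤ} {ψ : G → ℝ}
    (h : KerHom χ ψ) : ψ 1 = 0 := by
  have := h 1 1 (map_one χ) (map_one χ)
  rw [mul_one] at this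
  linarith

open Classical in
/-- **The core.** -/
theorem coreW {V E G : Type} [Fintype V] [Fintype E]
    [DecidableEq V] [DecidableEq E] [Group G] (x : V → G) (χ : G →* Multiplicative ℤ)
    (hχ : ∀ v, χ (x v) = Multiplicative.ofAdd 1) (p q lab : E → V)
    (hcard : Fintype.card V = Fintype.card E + 1) (ψ : G → ℝ) (hψ : KerHom χ ψ) (w : E → ℝ)
    (hw : ∀ e f, ψ (x (lab e) * (x (lab f))⁻¹) = w e - w f)
    (hu : UMin p q lab w) (y : E → G → ZMod 2)
    (hfin : {z : E × G | y z.1 z.2 ≠ 0}.Finite) (hy : Ker x p q lab y) : ∀ e g, y e g = 0 := by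
  obtain ⟨S, ⟨hM, hS⟩, huniq⟩ := hu
  obtain ⟨a, ha, hexp⟩ := Pool.Agent.N195.UDDUAL.main V E (mp p q S) lab hcard hM
  by_contra hne
  push Not at hne
  obtain ⟨e', g', hne⟩ := hne
  obtain ⟨⟨e0, g0⟩, h0, hmin0⟩ := Set.exists_min_image {z : E × G | y z.1 z.2 ≠ 0}
    (fun z => Multiplicative.toAdd (χ z.2)) hfin ⟨(e', g'), hne⟩
  have hmin : ∀ e g, y e g ≠ 0 → Multiplicative.toAdd (χ g0) ≤ Multiplicative.toAdd (χ g) :=
    fun e g h => hmin0 (e, g) h
  have hmpS : ∀ e ∈ S, mp p q S e = p e := fun e he => by unfold mp; exact if_pos he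
  have hmpN : ∀ e, e ∉ S → mp p q S e = q e := fun e he => by unfold mp; exact if_neg he
  -- the dual functions outside `S` are constant on the initial components
  have hconst : ∀ f, f ∉ S → ∀ e, a f (p e) = a f (lab e) := by
    intro f hf e
    refine z2' _ _ (hS (fun z => a f z = 0) ?_ e)
    intro e he
    have h1 := ha f e
    have hef : e ≠ f := by rintro rfl; exact hf he
    rw [hmpS e he, if_neg hef] at h1
    rw [z2 _ _ h1]
  have claim1 : ∀ b ∈ S, ∀ k, Multiplicative.toAdd (χ k) = Multiplicative.toAdd (χ g0) →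
      y b k ≠ 0 → ∃ e, e ∉ S ∧ y e k ≠ 0 ∧ a b (p e) + a b (lab e) ≠ 0 := by
    intro b hb k hk hyb
    by_contra hcon
    push Not at hcon
    have h1 := level_one x χ hχ p q lab y hy _ hmin k hk (a b)
    rw [Finset.sum_eq_single b] at h1
    · have h2 := ha b b
      rw [hmpS b hb, if_pos rfl] at h2
      rw [h2, mul_one] at h1
      exact hyb h1
    · intro e _ he
      by_cases heS : e ∈ S
      · have h2 := ha b e
        rw [hmpS e heS, if_neg he] at h2
        rw [h2, mul_zero]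
      · by_cases hye : y e k = 0
        · rw [hye, zero_mul]
        · rw [hcon e heS hye, mul_zero]
    · intro h; exact absurd (Finset.mem_univ _) h
  -- the states
  let Z : Set (E × G) := {z | z.1 ∉ S ∧ Multiplicative.toAdd (χ z.2) =
    Multiplicative.toAdd (χ g0) ∧ y z.1 z.2 ≠ 0}
  have hZfin : Z.Finite := hfin.subset fun z hz => hz.2.2
  have hZne : Z.Nonempty := by
    by_cases he0 : e0 ∈ S
    · obtain ⟨e, h1, h2, -⟩ := claim1 e0 he0 g0 rfl h0
      exact ⟨(e, g0), h1, rfl, h2⟩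
    · exact ⟨(e0, g0), he0, rfl, h0⟩
  have hnext : ∀ z : Z, ∃ (z' : Z) (b : E), b ∈ S ∧ qvf q lab a b z.1.1 ≠ 0 ∧
      pvf p lab a z'.1.1 b ≠ 0 ∧ z'.1.2 = z.1.2 * x (lab z.1.1) * (x (lab b))⁻¹ := by
    rintro ⟨⟨f, k⟩, hf, hk, hyk⟩
    have h1 := level_two x χ hχ p q lab y hy _ hmin (a f) (hconst f hf) (k * x (lab f)) (by
      rw [map_mul, hχ, ← hk]; rfl)
    have hex : ∃ b ∈ S, (a f (lab b) + a f (q b)) * y b (k * x (lab f) * (x (lab b))⁻¹) ≠ 0 := by
      by_contra hcon
      push Not at hcon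
      rw [Finset.sum_eq_single f] at h1
      · rw [mul_inv_cancel_right] at h1
        have h2 := ha f f
        rw [hmpN f hf, if_pos rfl, add_comm] at h2
        rw [h2, one_mul] at h1
        exact hyk h1
      · intro e _ he
        by_cases heS : e ∈ S
        · exact hcon e heS
        · have h2 := ha f e
          rw [hmpN e heS, if_neg he, add_comm] at h2
          rw [h2, zero_mul]
      · intro h; exact absurd (Finset.mem_univ _) h
    obtain ⟨b, hb, hbn⟩ := hex
    have hb1 := left_ne_zero_of_mul hbn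
    have hb2 := right_ne_zero_of_mul hbn
    have hdeg : Multiplicative.toAdd (χ (k * x (lab f) * (x (lab b))⁻¹)) =
        Multiplicative.toAdd (χ g0) := by
      rw [deg_inv x χ hχ, map_mul, hχ, ← hk]
      simp
    obtain ⟨e1, g1, g2, g3⟩ := claim1 b hb _ hdeg hb2
    exact ⟨⟨(e1, k * x (lab f) * (x (lab b))⁻¹), g1, hdeg, g2⟩, b, hb,
      by unfold qvf; rwa [add_comm], g3, rfl⟩
  choose nx bb hbS hbq hbp hbk using hnext
  obtain ⟨z0, hz0⟩ := hZne
  let s : ℕ → Z := fun n => nx^[n] ⟨z0, hz0⟩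
  have hs : ∀ n, s (n + 1) = nx (s n) := fun n => Function.iterate_succ_apply' nx n _
  have : Finite Z := hZfin
  obtain ⟨m, n, hmn, hsmn⟩ : ∃ m n, m < n ∧ s m = s n := by
    obtain ⟨m, n, hmn, h⟩ := Finite.exists_ne_map_eq_of_infinite s
    rcases Nat.lt_or_gt_of_ne hmn with h1 | h1
    · exact ⟨m, n, h1, h⟩
    · exact ⟨n, m, h1, h.symm⟩
  -- the potential
  have hlev : ∀ z z' : Z, χ ((z.1.2)⁻¹ * z'.1.2) = 1 := by
    intro z z'
    have h1 := z.2.2.1
    have h2 := z'.2.2.1
    rw [map_mul, map_inv]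
    have h3 : χ z.1.2 = χ z'.1.2 := by
      apply Multiplicative.toAdd.injective
      rw [h1, h2]
    rw [h3, inv_mul_cancel]
  have hpot : ∀ i, ψ ((s m).1.2⁻¹ * (s (m + i)).1.2) =
      ∑ j ∈ range i, (w (s (m + j)).1.1 - w (bb (s (m + j)))) := by
    intro i
    induction i with
    | zero => simp [hψ.one]
    | succ i ih =>
      rw [Finset.sum_range_succ, ← ih, ← add_assoc m i 1, hs, hbk]
      have e1 : (s m).1.2⁻¹ * ((s (m + i)).1.2 * x (lab (s (m + i)).1.1) *
          (x (lab (bb (s (m + i)))))⁻¹) = ((s m).1.2⁻¹ * (s (m + i)).1.2) *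
          (x (lab (s (m + i)).1.1) * (x (lab (bb (s (m + i)))))⁻¹) := by group
      rw [e1, hψ _ _ (hlev _ _) (by rw [map_mul, map_inv, hχ, hχ, mul_inv_cancel]), hw]
  obtain ⟨r, rfl⟩ : ∃ r, n = m + r := ⟨n - m, by omega⟩
  have hcost := hpot r
  rw [← hsmn, inv_mul_cancel, hψ.one] at hcost
  obtain ⟨S', h1, h2, h3, h4⟩ := exch p q lab S a w hS ha hexp ⟨r, by omega,
    fun j => (s (m + j)).1.1, fun j => bb (s (m + j)),
    fun j _ => ⟨(s (m + j)).2.1, hbS _, hbq _⟩, fun j _ => by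
      have := hbp (s (m + j))
      rw [← hs] at this
      exact this, by
      have := hbp (s (m + (r - 1)))
      rw [← hs, show m + (r - 1) + 1 = m + r by omega, ← hsmn] at this
      exact this, by
      refine le_of_eq ?_
      have e2 : ∑ j ∈ range r, (w (bb (s (m + j))) - w (s (m + j)).1.1) =
          - ∑ j ∈ range r, (w (s (m + j)).1.1 - w (bb (s (m + j)))) := by
        rw [← Finset.sum_neg_distrib]
        exact Finset.sum_congr rfl fun j _ => by ring
      rw [e2, ← hcost, neg_zero]⟩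
  have := huniq S' ⟨h2, h3⟩ h1
  linarith

end Pool.Agent.V7H42.LW
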