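import Pool.Agent.N819.UD.Fin

/-!
# Closed walks of nonpositive cost with the smallest number of steps

The weighted exchange argument for common bases of two binary matroids.
-/

set_option autoImplicit false

namespace Pool.Agent.V7H42.LW

open Finset

/-- There is a closed walk with `r` steps and nonpositive cost. -/
def CW {E : Type} (pv qv : E → E → ZMod 2) (A B : Set E) (w : E → ℝ) (r : ℕ) : Prop :=
  1 ≤ r ∧ ∃ f b : ℕ → E, (∀ n < r, f n ∈ A ∧ b n ∈ B ∧ qv (b n) (f n) ≠ 0) ∧
    (∀ n, n + 1 < r → pv (f (n + 1)) (b n) ≠ 0) ∧ pv (f 0) (b (r - 1)) ≠ 0 ∧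
    ∑ n ∈ range r, (w (b n) - w (f n)) ≤ 0

section

variable {E : Type} (pv qv : E → E → ZMod 2) (A B : Set E) (w : E → ℝ) (r : ℕ) (f b : ℕ → E)

/-- the partial sums of the costs -/
noncomputable def pre (n : ℕ) : ℝ := ∑ m ∈ range n, (w (b m) - w (f m))

/-- a periodic walk with smallest period of nonpositive cost -/
structure Per : Prop where
  pos : 1 ≤ r
  mem : ∀ n, f n ∈ A ∧ b n ∈ B ∧ qv (b n) (f n) ≠ 0
  step : ∀ n, pv (f (n + 1)) (b n) ≠ 0
  perf : ∀ n, f (n + r) = f n
  perb : ∀ n, b (n + r) = b n
  cost : pre w f b r ≤ 0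
  min : ∀ r' < r, ¬ CW pv qv A B w r'

variable {pv qv A B w r f b}

theorem exists_per (h : ∃ r, CW pv qv A B w r) :
    ∃ (r : ℕ) (f b : ℕ → E), Per pv qv A B w r f b := by
  classical
  have hs := Nat.find_spec h
  have hm : ∀ r' < Nat.find h, ¬ CW pv qv A B w r' := fun r' h' => Nat.find_min h h'
  generalize Nat.find h = r at hs hm
  obtain ⟨hr, f, b, h1, h2, h3, h4⟩ := hs
  have hr0 : 0 < r := hr
  refine ⟨r, fun n => f (n % r), fun n => b (n % r), ⟨hr, fun n => h1 _ (Nat.mod_lt _ hr0), ?_,
    fun n => by simp, fun n => by simp, ?_, hm⟩⟩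
  · intro n
    have hlt := Nat.mod_lt n hr0
    by_cases hn : n % r + 1 < r
    · have : (n + 1) % r = n % r + 1 := by
        rw [Nat.add_mod]
        by_cases hr1 : r = 1
        · subst hr1; omega
        · rw [Nat.mod_eq_of_lt (show 1 < r by omega), Nat.mod_eq_of_lt hn]
      simp only [this]
      exact h2 _ hn
    · have e1 : n % r = r - 1 := by omega
      have : (n + 1) % r = 0 := by
        have h5 : n + 1 = r * (n / r) + r := by
          have := Nat.div_add_mod n r
          omega
        rw [h5]
        simp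
      simp only [this, e1]
      exact h3
  · unfold pre
    refine le_trans (le_of_eq ?_) h4
    refine Finset.sum_congr rfl fun n hn => ?_
    beta_reduce
    rw [Nat.mod_eq_of_lt (mem_range.1 hn)]

variable (H : Per pv qv A B w r f b)

include H

theorem Per.pre_add (n : ℕ) : pre w f b (n + r) = pre w f b n + pre w f b r := by
  induction n with
  | zero => simp [pre]
  | succ n ih =>
    have h1 : pre w f b (n + 1 + r) = pre w f b (n + r) + (w (b (n + r)) - w (f (n + r))) := by
      rw [show n + 1 + r = (n + r) + 1 by ring]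
      exact Finset.sum_range_succ _ _
    have h2 : pre w f b (n + 1) = pre w f b n + (w (b n) - w (f n)) := Finset.sum_range_succ _ _
    rw [h1, h2, ih, H.perf, H.perb]
    ring

theorem Per.mod (n : ℕ) : f (n % r) = f n ∧ b (n % r) = b n := by
  have h : ∀ k m, f (m + r * k) = f m ∧ b (m + r * k) = b m := by
    intro k
    induction k with
    | zero => intro m; simp
    | succ k ih =>
      intro m
      have e : m + r * (k + 1) = (m + r * k) + r := by ring
      rw [e, H.perf, H.perb]
      exact ih m
  have := h (n / r) (n % r)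
  rw [Nat.mod_add_div] at this
  exact ⟨this.1.symm, this.2.symm⟩

/-- a chord from `b j` to `f (i + 1)` -/
theorem Per.chord_p {i j : ℕ} (h1 : i < j) (h2 : j < i + r) (h : pv (f (i + 1)) (b j) ≠ 0) :
    pre w f b (i + 1) < pre w f b (j + 1) := by
  by_contra hcon
  push Not at hcon
  refine H.min (j - i) (by omega) ⟨by omega, fun n => f (i + 1 + n), fun n => b (i + 1 + n),
    fun n _ => H.mem _, fun n _ => H.step _, ?_, ?_⟩
  · simp only [add_zero]
    rw [show i + 1 + (j - i - 1) = j by omega]
    exact h
  · have h3 : pre w f b (j + 1) = pre w f b (i + 1) +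
        ∑ n ∈ range (j - i), (w (b (i + 1 + n)) - w (f (i + 1 + n))) := by
      unfold pre
      rw [show j + 1 = (i + 1) + (j - i) by omega, Finset.sum_range_add]
    linarith

/-- a chord from `f j` to `b i` -/
theorem Per.chord_q {i j : ℕ} (h1 : i < j) (h2 : j < i + r) (h : qv (b i) (f j) ≠ 0) :
    pre w f b i - w (f i) < pre w f b j - w (f j) := by
  by_contra hcon
  push Not at hcon
  obtain ⟨m, rfl⟩ : ∃ m, j = i + 1 + m := ⟨j - i - 1, by omega⟩
  refine H.min (m + 1) (by omega) ⟨by omega, fun n => f (i + 1 + n),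
    fun n => if n = m then b i else b (i + 1 + n), fun n hn => ?_, fun n hn => ?_, ?_, ?_⟩
  · refine ⟨(H.mem _).1, ?_, ?_⟩
    · dsimp only
      split_ifs
      · exact (H.mem _).2.1
      · exact (H.mem _).2.1
    · dsimp only
      split_ifs with h3
      · subst h3
        exact h
      · exact (H.mem _).2.2
  · dsimp only
    rw [if_neg (by omega)]
    exact H.step (i + 1 + n)
  · dsimp only
    rw [if_pos (by omega)]
    exact H.step i
  · have h3 : pre w f b (i + 1 + m) = pre w f b (i + 1) +
        ∑ n ∈ range m, (w (b (i + 1 + n)) - w (f (i + 1 + n))) := by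
      unfold pre
      rw [Finset.sum_range_add]
    have h4 : pre w f b (i + 1) = pre w f b i + (w (b i) - w (f i)) := Finset.sum_range_succ _ _
    beta_reduce
    rw [Finset.sum_range_succ, if_pos rfl]
    have h5 : ∑ n ∈ range m, (w (if n = m then b i else b (i + 1 + n)) - w (f (i + 1 + n))) =
        ∑ n ∈ range m, (w (b (i + 1 + n)) - w (f (i + 1 + n))) := by
      refine Finset.sum_congr rfl fun n hn => ?_
      rw [if_neg (by have := mem_range.1 hn; omega)]
    rw [h5]
    linarith

theorem Per.f_ne {i j : ℕ} (h1 : i < j) (h2 : j < i + r) : f i ≠ f j := by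
  intro h
  have hr := H.pos
  have hc := H.cost
  have a1 : pv (f ((i + r - 1) + 1)) (b (j - 1 + r)) ≠ 0 := by
    rw [show (i + r - 1) + 1 = i + r by omega, H.perf, H.perb, h]
    have := H.step (j - 1)
    rwa [show j - 1 + 1 = j by omega] at this
  have b1 := H.chord_p (by omega) (by omega) a1
  rw [show i + r - 1 + 1 = i + r by omega, show j - 1 + r + 1 = j + r by omega, H.pre_add,
    H.pre_add] at b1
  have a2 : pv (f ((j - 1) + 1)) (b (i + r - 1)) ≠ 0 := by
    rw [show j - 1 + 1 = j by omega, ← h]
    have := H.step (i + r - 1)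
    rwa [show i + r - 1 + 1 = i + r by omega, H.perf] at this
  have b2 := H.chord_p (by omega) (by omega) a2
  rw [show j - 1 + 1 = j by omega, show i + r - 1 + 1 = i + r by omega, H.pre_add] at b2
  linarith

theorem Per.b_ne {i j : ℕ} (h1 : i < j) (h2 : j < i + r) : b i ≠ b j := by
  intro h
  have hr := H.pos
  have hc := H.cost
  have a1 : pv (f (i + 1)) (b j) ≠ 0 := by
    rw [← h]
    exact H.step i
  have b1 := H.chord_p h1 h2 a1
  have a2 : pv (f (j + 1)) (b (i + r)) ≠ 0 := by
    rw [H.perb, h]
    exact H.step j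
  have b2 := H.chord_p (by omega) (by omega) a2
  rw [show i + r + 1 = (i + 1) + r by omega, H.pre_add] at b2
  linarith

theorem Per.inj_f : Set.InjOn f (range r : Finset ℕ) := by
  intro i hi j hj h
  have hi' := mem_range.1 hi
  have hj' := mem_range.1 hj
  rcases Nat.lt_trichotomy i j with h1 | h1 | h1
  · exact absurd h (H.f_ne h1 (by omega))
  · exact h1
  · exact absurd h.symm (H.f_ne h1 (by omega))

theorem Per.inj_b : Set.InjOn b (range r : Finset ℕ) := by
  intro i hi j hj h
  have hi' := mem_range.1 hi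
  have hj' := mem_range.1 hj
  rcases Nat.lt_trichotomy i j with h1 | h1 | h1
  · exact absurd h (H.b_ne h1 (by omega))
  · exact h1
  · exact absurd h.symm (H.b_ne h1 (by omega))

/-- no periodic set is closed under steps which increase a quasiperiodic function -/
theorem Per.no_incr (D : ℕ → ℝ) (hD : ∀ n, D (n + r) = D n + pre w f b r) (T : ℕ → Prop)
    (hT : ∀ n, T (n % r) ↔ T n) (hstep : ∀ i, T i → ∃ j, i < j ∧ T j ∧ D i < D j) :
    ∀ i, ¬ T i := by
  classical
  intro i0 hi0
  have hr := H.pos
  have hr0 : 0 < r := hr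
  have hc := H.cost
  set c := pre w f b r with hcdef
  set F : ℕ → ℝ := fun n => D n - n * (c / r) with hF
  have hFp : ∀ n, F (n % r) = F n := by
    have h : ∀ k m, F (m + r * k) = F m := by
      intro k
      induction k with
      | zero => intro m; simp
      | succ k ih =>
        intro m
        have e : m + r * (k + 1) = (m + r * k) + r := by ring
        rw [e]
        have h1 : F (m + r * k + r) = F (m + r * k) := by
          simp only [hF]
          rw [hD]
          push_cast
          have : (r : ℝ) ≠ 0 := by exact_mod_cast hr0.ne'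
          field_simp
          ring
        rw [h1, ih]
    intro n
    have := h (n / r) (n % r)
    rw [Nat.mod_add_div] at this
    exact this.symm
  obtain ⟨i, hi, hmax⟩ := Finset.exists_max_image ((range r).filter fun n => T n) F
    ⟨i0 % r, by simp [Nat.mod_lt _ hr0, hT, hi0]⟩
  rw [mem_filter] at hi
  obtain ⟨j, h1, h2, h3⟩ := hstep i hi.2
  have h4 := hmax (j % r) (by simp [Nat.mod_lt _ hr0, hT, h2])
  rw [hFp] at h4
  simp only [hF] at h4
  have h5 : (j : ℝ) * (c / r) ≤ (i : ℝ) * (c / r) := by
    apply mul_le_mul_of_nonpos_right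
    · exact_mod_cast h1.le
    · apply div_nonpos_of_nonpos_of_nonneg hc
      positivity
  linarith

theorem Per.nonsing_p [DecidableEq E] (δ : E → ZMod 2)
    (h : ∀ i, ∑ x ∈ (range r).image b, δ x * pv (f i) x = 0) : ∀ i, δ (b i) = 0 := by
  have key := H.no_incr (fun n => pre w f b (n + 1))
    (fun n => by
      show pre w f b (n + r + 1) = pre w f b (n + 1) + pre w f b r
      rw [show n + r + 1 = (n + 1) + r by ring, H.pre_add])
    (fun n => δ (b n) ≠ 0) (fun n => by rw [(H.mod n).2]) ?_
  · intro i
    by_contra hi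
    exact key i hi
  · intro i hi
    have hr := H.pos
    have hr0 : 0 < r := hr
    have h1 := h (i + 1)
    have hmem : ∀ n, b n ∈ (range r).image b := fun n =>
      mem_image.2 ⟨n % r, mem_range.2 (Nat.mod_lt _ hr0), (H.mod n).2⟩
    obtain ⟨x, hx, hxi, hx0⟩ : ∃ x ∈ (range r).image b, x ≠ b i ∧ δ x * pv (f (i + 1)) x ≠ 0 := by
      by_contra hcon
      push Not at hcon
      rw [Finset.sum_eq_single (b i)] at h1
      · rcases mul_eq_zero.1 h1 with h2 | h2
        · exact hi h2
        · exact H.step i h2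
      · intro x hx hxi
        exact hcon x hx hxi
      · intro h2
        exact absurd (hmem i) h2
    obtain ⟨m, hm, rfl⟩ := mem_image.1 hx
    have hm' := mem_range.1 hm
    -- the lift of `m` in `(i, i + r)`
    have hmi : m ≠ i % r := by
      rintro rfl
      exact hxi (H.mod i).2
    have hil := Nat.mod_lt i hr0
    have hdm := Nat.div_add_mod i r
    obtain ⟨j, hj1, hj2, hj3⟩ : ∃ j, i < j ∧ j < i + r ∧ j % r = m := by
      rcases Nat.lt_or_gt_of_ne hmi with h3 | h3
      · refine ⟨r * (i / r) + m + r, by omega, by omega, ?_⟩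
        rw [Nat.add_mod_right, Nat.mul_add_mod, Nat.mod_eq_of_lt hm']
      · refine ⟨r * (i / r) + m, by omega, by omega, ?_⟩
        rw [Nat.mul_add_mod, Nat.mod_eq_of_lt hm']
    have hbj : b m = b j := by rw [← hj3]; exact (H.mod j).2
    rw [hbj] at hx0
    refine ⟨j, hj1, left_ne_zero_of_mul hx0, ?_⟩
    exact H.chord_p hj1 hj2 (right_ne_zero_of_mul hx0)

theorem Per.nonsing_q [DecidableEq E] (γ : E → ZMod 2)
    (h : ∀ i, ∑ x ∈ (range r).image f, γ x * qv (b i) x = 0) : ∀ i, γ (f i) = 0 := by
  have key := H.no_incr (fun n => pre w f b n - w (f n))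
    (fun n => by
      show pre w f b (n + r) - w (f (n + r)) = pre w f b n - w (f n) + pre w f b r
      rw [H.pre_add, H.perf]
      ring)
    (fun n => γ (f n) ≠ 0) (fun n => by rw [(H.mod n).1]) ?_
  · intro i
    by_contra hi
    exact key i hi
  · intro i hi
    have hr := H.pos
    have hr0 : 0 < r := hr
    have h1 := h i
    have hmem : ∀ n, f n ∈ (range r).image f := fun n =>
      mem_image.2 ⟨n % r, mem_range.2 (Nat.mod_lt _ hr0), (H.mod n).1⟩
    obtain ⟨x, hx, hxi, hx0⟩ : ∃ x ∈ (range r).image f, x ≠ f i ∧ γ x * qv (b i) x ≠ 0 := by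
      by_contra hcon
      push Not at hcon
      rw [Finset.sum_eq_single (f i)] at h1
      · rcases mul_eq_zero.1 h1 with h2 | h2
        · exact hi h2
        · exact (H.mem i).2.2 h2
      · intro x hx hxi
        exact hcon x hx hxi
      · intro h2
        exact absurd (hmem i) h2
    obtain ⟨m, hm, rfl⟩ := mem_image.1 hx
    have hm' := mem_range.1 hm
    have hmi : m ≠ i % r := by
      rintro rfl
      exact hxi (H.mod i).1
    have hil := Nat.mod_lt i hr0
    have hdm := Nat.div_add_mod i r
    obtain ⟨j, hj1, hj2, hj3⟩ : ∃ j, i < j ∧ j < i + r ∧ j % r = m := by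
      rcases Nat.lt_or_gt_of_ne hmi with h3 | h3
      · refine ⟨r * (i / r) + m + r, by omega, by omega, ?_⟩
        rw [Nat.add_mod_right, Nat.mul_add_mod, Nat.mod_eq_of_lt hm']
      · refine ⟨r * (i / r) + m, by omega, by omega, ?_⟩
        rw [Nat.mul_add_mod, Nat.mod_eq_of_lt hm']
    have hbj : f m = f j := by rw [← hj3]; exact (H.mod j).1
    rw [hbj] at hx0
    refine ⟨j, hj1, left_ne_zero_of_mul hx0, ?_⟩
    exact H.chord_q hj1 hj2 (right_ne_zero_of_mul hx0)

end

end Pool.Agent.V7H42.LW
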