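import Pool.Agent.V7H42.LW.Main

/-!
# A prime labelled oriented interval with three spanning decompositions of different weights
-/

set_option autoImplicit false

namespace Pool.Agent.V7H42.LW

open Pool.Agent.TH625.LOG Pool.Agent.N819.UD Pool.Agent.N819.LT Finset

section

variable {V E : Type}

theorem conn_of {p q : E → V}
    (h : ∀ P : V → Prop, (∀ e, P (p e) ↔ P (q e)) → ∀ x y, P x → P y) : Conn p q := by
  intro x y
  refine h (fun z => Relation.ReflTransGen (Joined p q) x z) ?_ x y Relation.ReflTransGen.refl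
  intro e
  exact ⟨fun h => h.tail ⟨e, Or.inl ⟨rfl, rfl⟩⟩, fun h => h.tail ⟨e, Or.inr ⟨rfl, rfl⟩⟩⟩

theorem of_conn {p q : E → V} (h : Conn p q) {α : Type} (v : V → α) (hv : ∀ e, v (p e) = v (q e))
    (x y : V) : v x = v y := by
  have h1 := h x y
  induction h1 with
  | refl => rfl
  | tail _ h2 ih =>
    rw [ih]
    obtain ⟨e, ⟨h3, h4⟩ | ⟨h3, h4⟩⟩ := h2
    · rw [← h3, ← h4, hv]
    · rw [← h3, ← h4, hv]

end

/-- the labelled oriented tree with the edges `1 → 2`, `0 → 1`, `0 → 7`, `6 → 5`, `5 → 3`, `4 → 3`,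
`4 → 7` and the labels `6, 3, 5, 2, 0, 1, 2` -/
def exL : LOG (Fin 8) (Fin 7) :=
  ⟨![1, 0, 0, 6, 5, 4, 4], ![2, 1, 7, 5, 3, 3, 7], ![6, 3, 5, 2, 0, 1, 2]⟩

/-- a colouring of the vertices -/
def exA : Fin 8 → ℝ := ![0, 0, 1, -1, -1, 0, -1, 1]

/-- a colouring of the vertices -/
def exB : Fin 8 → ℝ := ![0, -1, -2, -1, -2, -1, -3, 0]

/-- the coefficient of the first colouring -/
def cA (n : ℤ) : ℝ :=
  if n % 6 = 0 then 1 else if n % 6 = 2 then -1 else if n % 6 = 3 then -1 else
    if n % 6 = 5 then 1 else 0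

/-- the coefficient of the second colouring -/
def cB (n : ℤ) : ℝ :=
  if n % 6 = 1 then 1 else if n % 6 = 2 then 1 else if n % 6 = 4 then -1 else
    if n % 6 = 5 then -1 else 0

/-- the colouring, with the period six -/
def exPhi (n : ℤ) (v : Fin 8) : ℝ := cA n * exA v + cB n * exB v

theorem exPhi_col : Colouring exL exPhi := by
  intro n e
  unfold exPhi cA cB
  have h : n % 6 = 0 ∧ (n + 1) % 6 = 1 ∨ n % 6 = 1 ∧ (n + 1) % 6 = 2 ∨
      n % 6 = 2 ∧ (n + 1) % 6 = 3 ∨ n % 6 = 3 ∧ (n + 1) % 6 = 4 ∨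
      n % 6 = 4 ∧ (n + 1) % 6 = 5 ∨ n % 6 = 5 ∧ (n + 1) % 6 = 0 := by omega
  rcases h with ⟨h1, h2⟩ | ⟨h1, h2⟩ | ⟨h1, h2⟩ | ⟨h1, h2⟩ | ⟨h1, h2⟩ | ⟨h1, h2⟩ <;>
    rw [h1, h2] <;> fin_cases e <;> simp [exL, exA, exB] <;> norm_num

theorem exL_conn : Conn exL.ini exL.ter := by
  refine conn_of fun P h => ?_
  have h0 : P 1 ↔ P 2 := h 0
  have h1 : P 0 ↔ P 1 := h 1
  have h2 : P 0 ↔ P 7 := h 2
  have h3 : P 6 ↔ P 5 := h 3
  have h4 : P 5 ↔ P 3 := h 4
  have h5 : P 4 ↔ P 3 := h 5
  have h6 : P 4 ↔ P 7 := h 6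
  have k : ∀ x : Fin 8, P x ↔ P 5 := by
    intro x
    fin_cases x <;> simp <;> tauto
  intro x y hx
  exact (k y).2 ((k x).1 hx)

theorem mp_compl (p q : Fin 7 → Fin 8) (i j e : Fin 7) :
    mp p q {i, j}ᶜ e = if e = i ∨ e = j then q e else p e := by
  unfold mp
  by_cases h : e = i ∨ e = j
  · rw [if_neg (fun h2 => h2 h), if_pos h]
  · rw [if_pos (show e ∈ ({i, j}ᶜ : Set (Fin 7)) from fun h2 => h h2), if_neg h]

theorem dec_ini25 : Dec exL.ini exL.ter exL.lab ({2, 5}ᶜ : Set (Fin 7)) := by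
  constructor
  · refine conn_of fun P h => ?_
    simp only [mp_compl] at h
    have h0 : P 1 ↔ P 6 := h 0
    have h1 : P 0 ↔ P 3 := h 1
    have h2 : P 7 ↔ P 5 := h 2
    have h3 : P 6 ↔ P 2 := h 3
    have h4 : P 5 ↔ P 0 := h 4
    have h5 : P 3 ↔ P 1 := h 5
    have h6 : P 4 ↔ P 2 := h 6
    have k : ∀ x : Fin 8, P x ↔ P 5 := by
      intro x
      fin_cases x <;> simp <;> tauto
    intro x y hx
    exact (k y).2 ((k x).1 hx)
  · intro P h
    have h0 : P 1 ↔ P 6 := h 0 (by decide)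
    have h1 : P 0 ↔ P 3 := h 1 (by decide)
    have h3 : P 6 ↔ P 2 := h 3 (by decide)
    have h4 : P 5 ↔ P 0 := h 4 (by decide)
    have h6 : P 4 ↔ P 2 := h 6 (by decide)
    intro e
    fin_cases e <;> simp [exL] <;> tauto

theorem dec_ini26 : Dec exL.ini exL.ter exL.lab ({2, 6}ᶜ : Set (Fin 7)) := by
  constructor
  · refine conn_of fun P h => ?_
    simp only [mp_compl] at h
    have h0 : P 1 ↔ P 6 := h 0
    have h1 : P 0 ↔ P 3 := h 1
    have h2 : P 7 ↔ P 5 := h 2
    have h3 : P 6 ↔ P 2 := h 3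
    have h4 : P 5 ↔ P 0 := h 4
    have h5 : P 4 ↔ P 1 := h 5
    have h6 : P 7 ↔ P 2 := h 6
    have k : ∀ x : Fin 8, P x ↔ P 5 := by
      intro x
      fin_cases x <;> simp <;> tauto
    intro x y hx
    exact (k y).2 ((k x).1 hx)
  · intro P h
    have h0 : P 1 ↔ P 6 := h 0 (by decide)
    have h1 : P 0 ↔ P 3 := h 1 (by decide)
    have h3 : P 6 ↔ P 2 := h 3 (by decide)
    have h4 : P 5 ↔ P 0 := h 4 (by decide)
    have h5 : P 4 ↔ P 1 := h 5 (by decide)
    intro e
    fin_cases e <;> simp [exL] <;> tauto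

theorem dec_ter56 : Dec exL.ter exL.ini exL.lab ({5, 6}ᶜ : Set (Fin 7)) := by
  constructor
  · refine conn_of fun P h => ?_
    simp only [mp_compl] at h
    have h0 : P 2 ↔ P 6 := h 0
    have h1 : P 1 ↔ P 3 := h 1
    have h2 : P 7 ↔ P 5 := h 2
    have h3 : P 5 ↔ P 2 := h 3
    have h4 : P 3 ↔ P 0 := h 4
    have h5 : P 4 ↔ P 1 := h 5
    have h6 : P 4 ↔ P 2 := h 6
    have k : ∀ x : Fin 8, P x ↔ P 5 := by
      intro x
      fin_cases x <;> simp <;> tauto
    intro x y hx
    exact (k y).2 ((k x).1 hx)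
  · intro P h
    have h0 : P 2 ↔ P 6 := h 0 (by decide)
    have h1 : P 1 ↔ P 3 := h 1 (by decide)
    have h2 : P 7 ↔ P 5 := h 2 (by decide)
    have h3 : P 5 ↔ P 2 := h 3 (by decide)
    have h4 : P 3 ↔ P 0 := h 4 (by decide)
    intro e
    fin_cases e <;> simp [exL] <;> tauto

theorem dec_ter25 : Dec exL.ter exL.ini exL.lab ({2, 5}ᶜ : Set (Fin 7)) := by
  constructor
  · refine conn_of fun P h => ?_
    simp only [mp_compl] at h
    have h0 : P 2 ↔ P 6 := h 0
    have h1 : P 1 ↔ P 3 := h 1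
    have h2 : P 0 ↔ P 5 := h 2
    have h3 : P 5 ↔ P 2 := h 3
    have h4 : P 3 ↔ P 0 := h 4
    have h5 : P 4 ↔ P 1 := h 5
    have h6 : P 7 ↔ P 2 := h 6
    have k : ∀ x : Fin 8, P x ↔ P 5 := by
      intro x
      fin_cases x <;> simp <;> tauto
    intro x y hx
    exact (k y).2 ((k x).1 hx)
  · intro P h
    have h0 : P 2 ↔ P 6 := h 0 (by decide)
    have h1 : P 1 ↔ P 3 := h 1 (by decide)
    have h3 : P 5 ↔ P 2 := h 3 (by decide)
    have h4 : P 3 ↔ P 0 := h 4 (by decide)
    have h6 : P 7 ↔ P 2 := h 6 (by decide)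
    intro e
    fin_cases e <;> simp [exL] <;> tauto

/-- test functions -/
def tst (k : Fin 11) (x : Fin 8) : Bool :=
  (![ ![false, false, false, true, false, false, false, false],
    ![false, true, false, false, false, false, false, false],
    ![false, false, true, false, false, false, false, false],
    ![true, true, true, true, true, true, true, false],
    ![true, false, false, true, false, false, false, false],
    ![true, false, false, true, false, true, false, false],
    ![false, false, false, false, true, false, false, false],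
    ![false, true, true, false, true, false, true, false],
    ![false, true, false, false, true, false, false, false],
    ![false, false, true, false, true, false, false, false],
    ![false, true, true, false, true, false, false, false]] : Fin 11 → Fin 8 → Bool) k x

theorem classify : ∀ σ : Fin 7 → Bool,
    (∀ k : Fin 11, ((∀ e, σ e = true → tst k (exL.ini e) = tst k (exL.lab e)) →
        ∀ e, tst k (exL.ini e) = tst k (exL.lab e)) ∧
      ((∀ e, tst k (if σ e = true then exL.ini e else exL.ter e) = tst k (exL.lab e)) →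
        ∀ x, tst k x = tst k 0)) →
      (∀ e, σ e = true ↔ ¬ (e = 2 ∨ e = 5)) ∨ (∀ e, σ e = true ↔ ¬ (e = 2 ∨ e = 6)) ∨
        (∀ e, σ e = true ↔ ¬ (e = 2 ∨ e = 3)) := by
  decide +kernel

open Classical in
theorem dec_cases (S : Set (Fin 7)) (h : Dec exL.ini exL.ter exL.lab S) :
    S = {2, 5}ᶜ ∨ S = {2, 6}ᶜ ∨ S = {2, 3}ᶜ := by
  obtain ⟨hM, hS⟩ := h
  have h1 := classify (fun e => decide (e ∈ S)) (fun k => ⟨fun h2 e => ?_, fun h2 x => ?_⟩)
  · rcases h1 with h1 | h1 | h1
    · left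
      ext e
      have := h1 e
      simp only [decide_eq_true_eq] at this
      rw [this]
      simp
    · right; left
      ext e
      have := h1 e
      simp only [decide_eq_true_eq] at this
      rw [this]
      simp
    · right; right
      ext e
      have := h1 e
      simp only [decide_eq_true_eq] at this
      rw [this]
      simp
  · have h3 := hS (fun z => tst k z = true) (fun e he => by
      have := h2 e (by simpa using he)
      rw [this]) e
    beta_reduce at h3
    rcases hb : tst k (exL.lab e) with _ | _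
    · rcases hb' : tst k (exL.ini e) with _ | _
      · rfl
      · exact absurd (h3.1 hb') (by rw [hb]; decide)
    · exact h3.2 hb
  · refine of_conn hM (tst k) (fun e => ?_) x 0
    have := h2 e
    simp only [decide_eq_true_eq] at this
    unfold mp
    exact this

theorem wt_compl (w : Fin 7 → ℝ) (i j : Fin 7) (hij : i ≠ j) :
    wt w ({i, j}ᶜ : Set (Fin 7)) = w i + w j := by
  unfold wt
  rw [← Finset.sum_pair hij]
  symm
  rw [← Finset.sum_subset (Finset.subset_univ {i, j})]
  · refine Finset.sum_congr rfl fun e he => ?_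
    rw [if_neg]
    intro h2
    exact h2 (by simpa using he)
  · intro e _ he
    rw [if_pos]
    simpa using he

theorem umin_ex : UMin exL.ini exL.ter exL.lab (fun e => exPhi 0 (exL.lab e)) := by
  have hA : ∀ v, exPhi 0 v = exA v := by
    intro v
    unfold exPhi cA cB
    simp
  refine ⟨{2, 5}ᶜ, dec_ini25, fun S' h1 h2 => ?_⟩
  rw [wt_compl _ 2 5 (by decide)]
  rcases dec_cases S' h1 with h3 | h3 | h3
  · exact absurd h3 h2
  · subst h3
    rw [wt_compl _ 2 6 (by decide)]
    simp only [hA]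
    simp [exL, exA]
  · subst h3
    rw [wt_compl _ 2 3 (by decide)]
    simp only [hA]
    simp [exL, exA]

theorem not_unique_ini : ¬ ∃! S : Set (Fin 7), Dec exL.ini exL.ter exL.lab S := by
  rintro ⟨S, -, h⟩
  have h3 : ({2, 5}ᶜ : Set (Fin 7)) = {2, 6}ᶜ := (h _ dec_ini25).trans (h _ dec_ini26).symm
  have h4 : (5 : Fin 7) ∈ ({2, 5}ᶜ : Set (Fin 7)) := by
    rw [h3]
    decide
  exact h4 (Or.inr rfl)

theorem not_unique_ter : ¬ ∃! S : Set (Fin 7), Dec exL.ter exL.ini exL.lab S := by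
  rintro ⟨S, -, h⟩
  have h3 : ({5, 6}ᶜ : Set (Fin 7)) = {2, 5}ᶜ := (h _ dec_ter56).trans (h _ dec_ter25).symm
  have h4 : (6 : Fin 7) ∈ ({5, 6}ᶜ : Set (Fin 7)) := by
    rw [h3]
    decide
  exact h4 (Or.inr rfl)

/-- No edge is labelled by one of its ends, two edges with the same initial or the same terminal
vertex have different labels, and every leaf is a label. -/
theorem ex_reduced : (∀ e, exL.lab e ≠ exL.ini e ∧ exL.lab e ≠ exL.ter e) ∧
    (∀ e f, e ≠ f → exL.lab e = exL.lab f → exL.ini e ≠ exL.ini f ∧ exL.ter e ≠ exL.ter f) ∧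
    (∀ v, (∀ e f, (exL.ini e = v ∨ exL.ter e = v) → (exL.ini f = v ∨ exL.ter f = v) → e = f) →
      ∃ e, exL.lab e = v) := by
  decide

/-- Prime: there is no proper subtree with at least one edge whose labels are among its vertices. -/
theorem ex_prime : ∀ W : Finset (Fin 8), 2 ≤ W.card →
    (Finset.univ.filter fun e => exL.ini e ∈ W ∧ exL.ter e ∈ W ∧ exL.lab e ∈ W).card + 1 = W.card →
      W = Finset.univ := by
  decide +kernel

end Pool.Agent.V7H42.LW
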