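import Pool.Agent.V7H42.LW.Cyc

/-!
# Exchange along a closed walk of nonpositive cost
-/

set_option autoImplicit false

namespace Pool.Agent.V7H42.LW

open Pool.Agent.N819.UD Pool.Agent.N819.LT Pool.Agent.N281.UDEXCH Finset

open Classical in
/-- the total weight of the edges outside of `S` -/
noncomputable def wt {E : Type} [Fintype E] (w : E → ℝ) (S : Set E) : ℝ :=
  ∑ e, if e ∈ S then 0 else w e

/-- `p e` and `lab e` are on different sides of the cut of the tree edge `b` -/
def pvf {V E : Type} (p lab : E → V) (a : E → V → ZMod 2) (e b : E) : ZMod 2 :=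
  a b (p e) + a b (lab e)

/-- `q b` and `lab b` are on different sides of the cut of the tree edge `e` -/
def qvf {V E : Type} (q lab : E → V) (a : E → V → ZMod 2) (b e : E) : ZMod 2 :=
  a e (q b) + a e (lab b)

open Classical in
/-- exchange along a shortest closed walk of nonpositive cost -/
theorem exch {V E : Type} [Fintype V] [Fintype E] [DecidableEq V] [DecidableEq E]
    (p q lab : E → V) (S : Set E) (a : E → V → ZMod 2) (w : E → ℝ) (hsp : Spans p lab S)
    (hdual : ∀ f e, a f (mp p q S e) + a f (lab e) = if e = f then 1 else 0)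
    (hexp : ∀ (v : V → ZMod 2) (x y : V),
      v x + v y = ∑ f, (v (mp p q S f) + v (lab f)) * (a f x + a f y))
    (h : ∃ r, CW (pvf p lab a) (qvf q lab a) Sᶜ S w r) :
    ∃ S' : Set E, S' ≠ S ∧ Mix p q lab S' ∧ Spans p lab S' ∧ wt w S' ≤ wt w S := by
  obtain ⟨r, f, b, H⟩ := exists_per h
  have hr := H.pos
  have hr0 : 0 < r := hr
  obtain ⟨S', hS'⟩ : ∃ S' : Set E, ∀ e, e ∈ S' ↔
      ((e ∈ S ∧ e ∉ (range r).image b) ∨ e ∈ (range r).image f) :=
    ⟨{e | (e ∈ S ∧ e ∉ (range r).image b) ∨ e ∈ (range r).image f}, fun e => Iff.rfl⟩
  have mpS : ∀ e, e ∈ S → mp p q S e = p e := fun e he => if_pos he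
  have mpN : ∀ e, e ∉ S → mp p q S e = q e := fun e he => if_neg he
  have memf : ∀ n, f n ∈ (range r).image f := fun n =>
    mem_image.2 ⟨n % r, mem_range.2 (Nat.mod_lt _ hr0), (H.mod n).1⟩
  have memb : ∀ n, b n ∈ (range r).image b := fun n =>
    mem_image.2 ⟨n % r, mem_range.2 (Nat.mod_lt _ hr0), (H.mod n).2⟩
  have exf : ∀ e ∈ (range r).image f, ∃ n, e = f n := by
    intro e he
    obtain ⟨n, -, hn⟩ := mem_image.1 he
    exact ⟨n, hn.symm⟩
  have exb : ∀ e ∈ (range r).image b, ∃ n, e = b n := by
    intro e he
    obtain ⟨n, -, hn⟩ := mem_image.1 he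
    exact ⟨n, hn.symm⟩
  have fnS : ∀ n, f n ∉ S := fun n => (H.mem n).1
  have bS : ∀ n, b n ∈ S := fun n => (H.mem n).2.1
  -- the key step
  have key : ∀ v : V → ZMod 2, (∀ e ∈ S', v (p e) = v (lab e)) →
      ∀ b ∈ S, v (mp p q S b) + v (lab b) = 0 := by
    intro v hv
    have hin : ∀ c ∈ S, c ∉ (range r).image b → v (mp p q S c) + v (lab c) = 0 := by
      intro c hc h
      rw [mpS c hc, hv c ((hS' c).2 (Or.inl ⟨hc, h⟩))]
      exact z_self _
    have hz : ∀ i, (fun c => v (mp p q S c) + v (lab c)) (b i) = 0 := by
      refine H.nonsing_p (fun c => v (mp p q S c) + v (lab c)) ?_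
      intro i
      have h1 : v (p (f i)) + v (lab (f i)) = 0 := by
        rw [hv (f i) ((hS' _).2 (Or.inr (memf i)))]
        exact z_self _
      rw [hexp v (p (f i)) (lab (f i))] at h1
      rw [← h1]
      refine Finset.sum_subset (Finset.subset_univ _) fun c _ hc => ?_
      by_cases hcS : c ∈ S
      · rw [hin c hcS hc, zero_mul]
      · have h2 : pvf p lab a (f i) c = 0 := by
          apply z_iff
          refine hsp (fun x => a c x = 1) ?_ (f i)
          intro e he
          have h3 := hdual c e
          have hne : ¬ e = c := by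
            intro h
            rw [h] at he
            exact hcS he
          rw [mpS e he, if_neg hne] at h3
          have h4 := z_eq _ _ h3
          constructor
          · intro h5
            rw [← h4]
            exact h5
          · intro h5
            change a c (p e) = 1
            rw [h4]
            exact h5
        rw [h2, mul_zero]
    intro c hc
    by_cases hcb : c ∈ (range r).image b
    · obtain ⟨n, rfl⟩ := exb c hcb
      exact hz n
    · exact hin c hc hcb
  refine ⟨S', ?_, ?_, ?_, ?_⟩
  · intro h
    have h1 : f 0 ∈ S' := (hS' _).2 (Or.inr (memf 0))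
    rw [h] at h1
    exact fnS 0 h1
  · -- connectedness
    have mpS' : ∀ e, e ∈ S' → mp p q S' e = p e := fun e he => if_pos he
    have mpN' : ∀ e, e ∉ S' → mp p q S' e = q e := fun e he => if_neg he
    intro x0 y0
    let u : V → ZMod 2 := fun x => if Relation.ReflTransGen (Joined (mp p q S') lab) x0 x then 1 else 0
    have hu : ∀ e, u (mp p q S' e) = u (lab e) := by
      intro e
      have h3 : Relation.ReflTransGen (Joined (mp p q S') lab) x0 (mp p q S' e) ↔
          Relation.ReflTransGen (Joined (mp p q S') lab) x0 (lab e) :=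
        ⟨fun h => h.tail ⟨e, Or.inl ⟨rfl, rfl⟩⟩, fun h => h.tail ⟨e, Or.inr ⟨rfl, rfl⟩⟩⟩
      change (if _ then (1 : ZMod 2) else 0) = if _ then (1 : ZMod 2) else 0
      by_cases h4 : Relation.ReflTransGen (Joined (mp p q S') lab) x0 (mp p q S' e)
      · rw [if_pos h4, if_pos (h3.1 h4)]
      · rw [if_neg h4, if_neg (fun h => h4 (h3.2 h))]
    have hin : ∀ c ∈ S, u (mp p q S c) + u (lab c) = 0 := by
      apply key u
      intro e he
      rw [← mpS' e he]
      exact hu e
    have hout : ∀ c, c ∉ S → c ∉ (range r).image f → u (mp p q S c) + u (lab c) = 0 := by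
      intro c hc hcW
      have h1 : c ∉ S' := by
        intro h
        rcases (hS' c).1 h with h2 | h2
        · exact hc h2.1
        · exact hcW h2
      have h2 := hu c
      rw [mpN' c h1] at h2
      rw [mpN c hc, h2]
      exact z_self _
    have hz : ∀ i, (fun c => u (mp p q S c) + u (lab c)) (f i) = 0 := by
      refine H.nonsing_q (fun c => u (mp p q S c) + u (lab c)) ?_
      intro i
      have hb : b i ∉ S' := by
        intro h
        rcases (hS' _).1 h with h2 | h2
        · exact h2.2 (memb i)
        · obtain ⟨n, hn⟩ := exf _ h2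
          exact fnS n (hn ▸ bS i)
      have h1 : u (q (b i)) + u (lab (b i)) = 0 := by
        rw [← mpN' _ hb, hu]
        exact z_self _
      rw [hexp u (q (b i)) (lab (b i))] at h1
      rw [← h1]
      refine Finset.sum_subset (Finset.subset_univ _) fun c _ hc => ?_
      by_cases hcS : c ∈ S
      · rw [hin c hcS, zero_mul]
      · rw [hout c hcS hc, zero_mul]
    have hall : ∀ c, u (mp p q S c) + u (lab c) = 0 := by
      intro c
      by_cases hc : c ∈ S
      · exact hin c hc
      · by_cases hcW : c ∈ (range r).image f
        · obtain ⟨n, rfl⟩ := exf c hcW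
          exact hz n
        · exact hout c hc hcW
    have h1 : u x0 + u y0 = 0 := by
      rw [hexp u x0 y0]
      refine Finset.sum_eq_zero fun c _ => ?_
      rw [hall c, zero_mul]
    have h2 : u x0 = u y0 := z_eq _ _ h1
    have h3 : u x0 = 1 := if_pos Relation.ReflTransGen.refl
    by_contra h4
    have h5 : u y0 = 0 := if_neg h4
    rw [h3, h5] at h2
    exact one_ne_zero h2
  · -- spanning
    intro P hPP
    apply hsp P
    intro c hc
    let v : V → ZMod 2 := fun x => if P x then 1 else 0
    have hv : ∀ e ∈ S', v (p e) = v (lab e) := by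
      intro e he
      have h1 := hPP e he
      change (if _ then (1 : ZMod 2) else 0) = if _ then (1 : ZMod 2) else 0
      by_cases h4 : P (p e)
      · rw [if_pos h4, if_pos (h1.1 h4)]
      · rw [if_neg h4, if_neg (fun h => h4 (h1.2 h))]
    have h1 := key v hv c hc
    rw [mpS c hc] at h1
    have h2 : v (p c) = v (lab c) := z_eq _ _ h1
    constructor
    · intro h3
      by_contra h4
      have h5 : v (p c) = 1 := if_pos h3
      have h6 : v (lab c) = 0 := if_neg h4
      rw [h5, h6] at h2
      exact one_ne_zero h2
    · intro h3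
      by_contra h4
      have h5 : v (lab c) = 1 := if_pos h3
      have h6 : v (p c) = 0 := if_neg h4
      rw [h5, h6] at h2
      exact zero_ne_one h2
  · -- the weights
    have h1 : wt w S' = wt w S + ∑ e, ((if e ∈ (range r).image b then w e else 0) -
        (if e ∈ (range r).image f then w e else 0)) := by
      unfold wt
      rw [← Finset.sum_add_distrib]
      refine Finset.sum_congr rfl fun e _ => ?_
      by_cases h2 : e ∈ (range r).image f
      · have h3 : e ∉ S := by
          obtain ⟨n, rfl⟩ := exf e h2
          exact fnS n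
        have h4 : e ∉ (range r).image b := by
          intro h5
          obtain ⟨n, rfl⟩ := exb e h5
          exact h3 (bS n)
        rw [if_pos ((hS' e).2 (Or.inr h2)), if_neg h3, if_neg h4, if_pos h2]
        ring
      · by_cases h4 : e ∈ (range r).image b
        · have h3 : e ∈ S := by
            obtain ⟨n, rfl⟩ := exb e h4
            exact bS n
          have h5 : e ∉ S' := by
            intro h6
            rcases (hS' e).1 h6 with h7 | h7
            · exact h7.2 h4
            · exact h2 h7
          rw [if_neg h5, if_pos h3, if_pos h4, if_neg h2]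
          ring
        · have h5 : e ∈ S' ↔ e ∈ S := by
            rw [hS']
            constructor
            · rintro (h6 | h6)
              · exact h6.1
              · exact absurd h6 h2
            · intro h6
              exact Or.inl ⟨h6, h4⟩
          simp only [h5, if_neg h2, if_neg h4]
          ring
    have hb : ∑ e, (if e ∈ (range r).image b then w e else 0) = ∑ n ∈ range r, w (b n) := by
      rw [← Finset.sum_image (f := w) H.inj_b, ← Finset.sum_filter]
      congr 1
      ext e
      simp
    have hf : ∑ e, (if e ∈ (range r).image f then w e else 0) = ∑ n ∈ range r, w (f n) := by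
      rw [← Finset.sum_image (f := w) H.inj_f, ← Finset.sum_filter]
      congr 1
      ext e
      simp
    have hc := H.cost
    unfold pre at hc
    rw [Finset.sum_sub_distrib] at hc
    rw [h1, Finset.sum_sub_distrib, hb, hf]
    linarith

end Pool.Agent.V7H42.LW
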