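import Pool.Agent.V7H42.LW.Core

/-!
# Labelled oriented trees with exactly one spanning decomposition of smallest weight: subcomplexes
-/

set_option autoImplicit false

namespace Pool.Agent.V7H42.LW

open Pool.Agent.TH625.LOG Pool.Agent.N819.UD Pool.Agent.N819.LT Finset

variable {V E : Type}

/-- the homomorphism from the group of a subcomplex -/
def incl (L : LOG V E) (S : Set E) : (sub L S).G →* L.G :=
  PresentedGroup.toGroup (f := fun v => L.gen v) (by
    rintro _ ⟨e, rfl⟩
    have h := Pool.Agent.N819.UD.gen_rel L (e : E)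
    simp only [LOG.rel, map_mul, map_inv, FreeGroup.lift_apply_of]
    rw [mul_inv_eq_one, mul_inv_eq_iff_eq_mul]
    exact h)

theorem incl_gen (L : LOG V E) (S : Set E) (v : V) :
    incl L S ((sub L S).gen v) = L.gen v := PresentedGroup.toGroup.of _

theorem chi_incl (L : LOG V E) (S : Set E) (g : (sub L S).G) :
    chi L (incl L S g) = chi (sub L S) g := by
  have h : (chi L).comp (incl L S) = chi (sub L S) := by
    apply PresentedGroup.ext
    intro v
    show chi L (incl L S ((sub L S).gen v)) = chi (sub L S) ((sub L S).gen v)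
    rw [incl_gen, chi_gen, chi_gen]
  exact DFunLike.congr_fun h g

theorem kerHom_incl (L : LOG V E) (S : Set E) {ψ : L.G → ℝ} (hψ : KerHom (chi L) ψ) :
    KerHom (chi (sub L S)) (fun g => ψ (incl L S g)) := by
  intro g h hg hh
  show ψ (incl L S (g * h)) = _
  rw [map_mul]
  exact hψ _ _ (by rw [chi_incl, hg]) (by rw [chi_incl, hh])

/-- the initial version -/
theorem inj_ini [Fintype V] [Fintype E]
    [DecidableEq V] [DecidableEq E] (L : LOG V E) (hcard : Fintype.card V = Fintype.card E + 1)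
    (ψ : L.G → ℝ) (hψ : KerHom (chi L) ψ) (w : E → ℝ)
    (hw : ∀ e f, ψ (L.gen (L.lab e) * (L.gen (L.lab f))⁻¹) = w e - w f)
    (hu : UMin L.ini L.ter L.lab w) (S' : Set E)
    (c : (S' × (sub L S').G) →₀ ℤ) (hc : (sub L S').bdry c = 0) : c = 0 := by
  classical
  refine Pool.Agent.N249.UD_MOD2.main V S' (sub L S') ?_ c hc
  intro y hfin hy e g
  have h := coreW (sub L S').gen (chi (sub L S')) (chi_gen _) L.ini L.ter L.lab hcard
    (fun g => ψ (incl L S' g)) (kerHom_incl L S' hψ) w (fun e f => by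
      rw [map_mul, map_inv, incl_gen, incl_gen, hw]) hu
    (ext S' y) (fin_ext S' y hfin) (ker_ext S' _ L.ini L.ter L.lab y hy) e g
  rwa [ext_mem] at h

/-- the terminal version -/
theorem inj_ter [Fintype V] [Fintype E]
    [DecidableEq V] [DecidableEq E] (L : LOG V E) (hcard : Fintype.card V = Fintype.card E + 1)
    (ψ : L.G → ℝ) (hψ : KerHom (chi L) ψ) (w : E → ℝ)
    (hw : ∀ e f, ψ ((L.gen (L.lab e))⁻¹ * L.gen (L.lab f)) = w e - w f)
    (hu : UMin L.ter L.ini L.lab w) (S' : Set E)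
    (c : (S' × (sub L S').G) →₀ ℤ) (hc : (sub L S').bdry c = 0) : c = 0 := by
  classical
  refine Pool.Agent.N249.UD_MOD2.main V S' (sub L S') ?_ c hc
  intro y hfin hy e g
  let M := sub L S'
  let y' : S' → M.G → ZMod 2 := fun e g => y e (g * (M.gen (M.lab e))⁻¹ * (M.gen (M.ini e))⁻¹)
  have hy' : Ker (fun v => (M.gen v)⁻¹) M.ter M.ini M.lab y' := ker_rev M y hy
  have hfin' : {z : S' × M.G | y' z.1 z.2 ≠ 0}.Finite := by
    refine (hfin.preimage (f := fun z : S' × M.G =>
      (z.1, z.2 * (M.gen (M.lab z.1))⁻¹ * (M.gen (M.ini z.1))⁻¹)) ?_).subset ?_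
    · rintro ⟨e1, g1⟩ _ ⟨e2, g2⟩ _ h
      simp only [Prod.mk.injEq] at h
      obtain ⟨h1, h3⟩ := h
      subst h1
      simp only [mul_left_inj] at h3
      rw [h3]
    · intro z hz
      exact hz
  have hχ : ∀ v, (chi M)⁻¹ ((M.gen v)⁻¹) = Multiplicative.ofAdd 1 := by
    intro v
    rw [MonoidHom.inv_apply, map_inv, inv_inv, chi_gen]
  have hk : KerHom (chi M)⁻¹ (fun g => ψ (incl L S' g)) := by
    intro g h hg hh
    rw [MonoidHom.inv_apply, inv_eq_one] at hg hh
    exact kerHom_incl L S' hψ g h hg hh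
  have h := coreW (fun v => (M.gen v)⁻¹) (chi M)⁻¹ hχ L.ter L.ini L.lab hcard
    (fun g => ψ (incl L S' g)) hk w (fun e f => by
      rw [inv_inv, map_mul, map_inv, incl_gen, incl_gen, hw]) hu
    (ext S' y') (fin_ext S' y' hfin') (ker_ext S' _ L.ter L.ini L.lab y' hy') e
    (g * M.gen (M.ini e) * M.gen (M.lab e))
  rw [ext_mem] at h
  have h3 : y' e (g * M.gen (M.ini e) * M.gen (M.lab e)) = y e g := by
    change y e (g * M.gen (M.ini e) * M.gen (M.lab e) * (M.gen (M.lab e))⁻¹ * (M.gen (M.ini e))⁻¹) = _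
    rw [mul_inv_cancel_right, mul_inv_cancel_right]
  rwa [h3] at h

/-! ### Colourings -/

/-- A real colouring: a sequence of functions on the vertices such that the difference of the initial
vertex and the label in one function is the difference of the terminal vertex and the label in the
preceding one. -/
def Colouring (L : LOG V E) (φ : ℤ → V → ℝ) : Prop :=
  ∀ n e, φ (n + 1) (L.ini e) - φ (n + 1) (L.lab e) = φ n (L.ter e) - φ n (L.lab e)

/-- the action of a generator -/
def act (φ : ℤ → V → ℝ) (v : V) : Equiv.Perm (ℤ × ℝ) where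
  toFun z := (z.1 + 1, z.2 + φ z.1 v)
  invFun z := (z.1 - 1, z.2 - φ (z.1 - 1) v)
  left_inv z := by
    refine Prod.ext ?_ ?_
    · simp
    · simp
  right_inv z := by
    refine Prod.ext ?_ ?_
    · simp
    · simp

theorem act_apply (φ : ℤ → V → ℝ) (v : V) (z : ℤ × ℝ) :
    act φ v z = (z.1 + 1, z.2 + φ z.1 v) := rfl

theorem act_inv (φ : ℤ → V → ℝ) (v : V) (z : ℤ × ℝ) :
    (act φ v)⁻¹ z = (z.1 - 1, z.2 - φ (z.1 - 1) v) := rfl

/-- the action of the group -/
def rho (L : LOG V E) (φ : ℤ → V → ℝ) (hφ : Colouring L φ) : L.G →* Equiv.Perm (ℤ × ℝ) :=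
  PresentedGroup.toGroup (f := act φ) (by
    rintro _ ⟨e, rfl⟩
    simp only [LOG.rel, map_mul, map_inv, FreeGroup.lift_apply_of]
    rw [mul_inv_eq_one, mul_inv_eq_iff_eq_mul]
    ext1 z
    rw [Equiv.Perm.mul_apply, Equiv.Perm.mul_apply]
    simp only [act_apply]
    have h := hφ z.1 e
    refine Prod.ext rfl ?_
    show z.2 + φ z.1 (L.lab e) + φ (z.1 + 1) (L.ini e) =
      z.2 + φ z.1 (L.ter e) + φ (z.1 + 1) (L.lab e)
    linarith)

theorem rho_gen (L : LOG V E) (φ : ℤ → V → ℝ) (hφ : Colouring L φ) (v : V) :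
    rho L φ hφ (L.gen v) = act φ v := PresentedGroup.toGroup.of _

/-- the group acts by translations -/
theorem rho_shift (L : LOG V E) (φ : ℤ → V → ℝ) (hφ : Colouring L φ) (g : L.G) :
    ∀ (z : ℤ × ℝ) (t : ℝ), rho L φ hφ g (z.1, z.2 + t) =
      ((rho L φ hφ g z).1, (rho L φ hφ g z).2 + t) ∧
      (rho L φ hφ g z).1 = z.1 + Multiplicative.toAdd (chi L g) := by
  let P : L.G → Prop := fun g => ∀ (z : ℤ × ℝ) (t : ℝ), rho L φ hφ g (z.1, z.2 + t) =
      ((rho L φ hφ g z).1, (rho L φ hφ g z).2 + t) ∧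
      (rho L φ hφ g z).1 = z.1 + Multiplicative.toAdd (chi L g)
  have h1 : P 1 := by
    intro z t
    simp
  have hmul : ∀ g h, P g → P h → P (g * h) := by
    intro g h hg hh z t
    have a1 := (hh z t).1
    have a2 := (hh z t).2
    have a3 := hg (rho L φ hφ h z) t
    rw [map_mul, Equiv.Perm.mul_apply, Equiv.Perm.mul_apply, a1, map_mul, toAdd_mul]
    refine ⟨a3.1, ?_⟩
    rw [a3.2, a2]
    ring
  have hgen : ∀ v, P (L.gen v) := by
    intro v z t
    rw [rho_gen, chi_gen]
    simp only [act_apply]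
    refine ⟨Prod.ext rfl ?_, rfl⟩
    show z.2 + t + φ z.1 v = z.2 + φ z.1 v + t
    ring
  have hinv : ∀ v, P (L.gen v)⁻¹ := by
    intro v z t
    rw [map_inv, rho_gen, map_inv, chi_gen]
    simp only [act_inv]
    refine ⟨Prod.ext rfl ?_, ?_⟩
    · show z.2 + t - φ (z.1 - 1) v = z.2 - φ (z.1 - 1) v + t
      ring
    · show z.1 - 1 = z.1 + -1
      ring
  have key : ∀ x : FreeGroup V, P (L.pr x) := by
    intro x
    induction x using FreeGroup.induction_on with
    | C1 => rw [map_one]; exact h1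
    | of v => exact hgen v
    | inv_of v _ => rw [map_inv]; exact hinv v
    | mul x y hx hy => rw [map_mul]; exact hmul _ _ hx hy
  obtain ⟨x, rfl⟩ : ∃ x, L.pr x = g := by
    induction g using PresentedGroup.induction_on with
    | _ z => exact ⟨z, rfl⟩
  exact key x

/-- the character of the commutator subgroup of a colouring -/
def psi (L : LOG V E) (φ : ℤ → V → ℝ) (hφ : Colouring L φ) (n : ℤ) (g : L.G) : ℝ :=
  (rho L φ hφ g (n, 0)).2

theorem psi_kerHom (L : LOG V E) (φ : ℤ → V → ℝ) (hφ : Colouring L φ) (n : ℤ) :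
    KerHom (chi L) (psi L φ hφ n) := by
  intro g h hg hh
  unfold psi
  rw [map_mul, Equiv.Perm.mul_apply]
  have h1 : rho L φ hφ h (n, 0) = (n, (rho L φ hφ h (n, 0)).2) := by
    refine Prod.ext ?_ rfl
    rw [(rho_shift L φ hφ h (n, 0) 0).2, hh]
    simp
  rw [h1]
  have h2 := (rho_shift L φ hφ g (n, 0) (rho L φ hφ h (n, 0)).2).1
  simp only [zero_add] at h2
  rw [h2]

theorem psi_ini (L : LOG V E) (φ : ℤ → V → ℝ) (hφ : Colouring L φ) (n : ℤ) (v u : V) :
    psi L φ hφ (n + 1) (L.gen v * (L.gen u)⁻¹) = φ n v - φ n u := by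
  unfold psi
  rw [map_mul, map_inv, rho_gen, rho_gen, Equiv.Perm.mul_apply, act_inv, act_apply]
  simp only [add_sub_cancel_right]
  ring

theorem psi_ter (L : LOG V E) (φ : ℤ → V → ℝ) (hφ : Colouring L φ) (n : ℤ) (v u : V) :
    psi L φ hφ n ((L.gen v)⁻¹ * L.gen u) = φ n u - φ n v := by
  unfold psi
  rw [map_mul, map_inv, rho_gen, rho_gen, Equiv.Perm.mul_apply, act_inv, act_apply]
  simp

end Pool.Agent.V7H42.LW
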